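import Pool.Agent.Q73.GM.Defs

set_option autoImplicit false

/-!
Project GM (helper73): growth of the parameters (from `Pool.Agent.TH313.HI.Est1`), permanence
properties of `Bd`, `RIS`, `Av`.
-/

namespace Pool.Agent.Q73.GM

open Finset Filter Topology

noncomputable section

/-! ### growth -/

theorem mm_succ (j : ℕ) : mm (j + 1) = mm j ^ 2 := by
  unfold mm
  rw [← pow_mul, pow_succ 2 (j + 1)]

theorem four_le_mm (j : ℕ) : 4 ≤ mm j := by
  unfold mm
  have h : 2 ≤ 2 ^ (j + 1) := by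
    calc 2 = 2 ^ 1 := by norm_num
      _ ≤ 2 ^ (j + 1) := Nat.pow_le_pow_right (by norm_num) (by omega)
  calc 4 = 2 ^ 2 := by norm_num
    _ ≤ 2 ^ 2 ^ (j + 1) := Nat.pow_le_pow_right (by norm_num) h

theorem mm_pos (j : ℕ) : 0 < mm j := by have := four_le_mm j; omega

theorem mm_strictMono : StrictMono mm := by
  refine strictMono_nat_of_lt_succ fun j => ?_
  rw [mm_succ]
  have := four_le_mm j
  nlinarith

theorem mm_mono {i j : ℕ} (h : i ≤ j) : mm i ≤ mm j := mm_strictMono.monotone h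

theorem two_pow_rr (j : ℕ) : 2 ^ rr j = mm j ^ 2 := by
  unfold mm rr
  rw [← pow_mul, pow_succ 2 (j + 1)]

theorem lt_mm (j : ℕ) : j < mm j := by
  unfold mm
  have h1 : j < 2 ^ (j + 1) := (Nat.lt_succ_self j).trans (Nat.lt_two_pow_self)
  exact h1.trans Nat.lt_two_pow_self

theorem mm_pow_le_nn (j : ℕ) : mm j ^ 4 ≤ nn j := by
  cases j with
  | zero =>
    rw [nn]
    have h2 : 1 ≤ 2 ^ rr 0 := Nat.one_le_pow _ _ (by norm_num)
    calc mm 0 ^ 4 = mm 0 ^ 4 * 1 * 1 := by ring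
      _ ≤ mm 0 ^ 4 * 5 * 2 ^ rr 0 := Nat.mul_le_mul (Nat.mul_le_mul le_rfl (by norm_num)) h2
  | succ j =>
    rw [nn]
    have h1 : 1 ≤ 5 * nn j + 5 := by omega
    have h2 : 1 ≤ (2 * nn j + 2) ^ rr (j + 1) := Nat.one_le_pow _ _ (by omega)
    calc mm (j + 1) ^ 4 = mm (j + 1) ^ 4 * 1 * 1 := by ring
      _ ≤ mm (j + 1) ^ 4 * (5 * nn j + 5) * (2 * nn j + 2) ^ rr (j + 1) :=
        Nat.mul_le_mul (Nat.mul_le_mul le_rfl h1) h2

theorem nn_pos (j : ℕ) : 0 < nn j := lt_of_lt_of_le (pow_pos (mm_pos j) 4) (mm_pow_le_nn j)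

theorem nn_succ_ge (j : ℕ) : mm (j + 1) ^ 4 * (5 * nn j + 5) * (2 * nn j + 2) ^ rr (j + 1) ≤ nn (j + 1) := by
  rw [nn]

theorem nn_strictMono : StrictMono nn := by
  refine strictMono_nat_of_lt_succ fun j => ?_
  rw [nn]
  have h1 : 1 ≤ mm (j + 1) ^ 4 := Nat.one_le_pow _ _ (mm_pos _)
  have h2 : 1 ≤ (2 * nn j + 2) ^ rr (j + 1) := Nat.one_le_pow _ _ (by omega)
  calc nn j < 1 * (5 * nn j + 5) * 1 := by omega
    _ ≤ mm (j + 1) ^ 4 * (5 * nn j + 5) * (2 * nn j + 2) ^ rr (j + 1) :=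
        Nat.mul_le_mul (Nat.mul_le_mul h1 le_rfl) h2

theorem nn_mono {i j : ℕ} (h : i ≤ j) : nn i ≤ nn j := nn_strictMono.monotone h

theorem two_dvd_nn (j : ℕ) : 2 ∣ nn j := by
  have h : 2 ∣ mm j := by
    unfold mm
    exact dvd_pow_self 2 (by positivity)
  have h4 : 2 ∣ mm j ^ 4 := dvd_pow h (by norm_num)
  cases j with
  | zero =>
    rw [nn]
    exact Dvd.dvd.mul_right (Dvd.dvd.mul_right h4 _) _
  | succ j =>
    rw [nn]
    exact Dvd.dvd.mul_right (Dvd.dvd.mul_right h4 _) _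

theorem lt_nn (j : ℕ) : j < nn j := by
  have h1 := lt_mm j
  have h2 := mm_pow_le_nn j
  have h3 : mm j ≤ mm j ^ 4 := Nat.le_self_pow (by norm_num) _
  omega

theorem nn_le_DD {i q : ℕ} (h : i < q) : nn i ≤ DD q := by
  unfold DD
  rw [if_neg (by omega)]
  exact nn_mono (by omega)

theorem nn_ge_DD (q : ℕ) : mm q ^ 4 * (5 * DD q + 5) * (2 * DD q + 2) ^ rr q ≤ nn q := by
  unfold DD
  cases q with
  | zero => rw [if_pos rfl, nn]
  | succ q =>
    rw [if_neg (by omega), Nat.add_sub_cancel]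
    exact nn_succ_ge q


theorem inv_mm_le (j : ℕ) : ((mm j : ℝ))⁻¹ ≤ 1 / 4 := by
  rw [one_div]
  apply inv_anti₀ (by norm_num)
  exact_mod_cast four_le_mm j

theorem mm_pos' (j : ℕ) : (0 : ℝ) < mm j := by exact_mod_cast mm_pos j

theorem nn_pos' (j : ℕ) : (0 : ℝ) < nn j := by exact_mod_cast nn_pos j

/-- the real form of the growth condition -/
theorem growth (q : ℕ) :
    (mm q : ℝ) ^ 4 * (5 * DD q + 5) * (2 * DD q + 2) ^ rr q ≤ nn q := by
  exact_mod_cast nn_ge_DD q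

theorem mm_le_nn (q : ℕ) : (mm q : ℝ) ^ 4 ≤ nn q := by exact_mod_cast mm_pow_le_nn q

theorem two_pow_rr' (q : ℕ) : (2 : ℝ) ^ rr q = (mm q : ℝ) ^ 2 := by exact_mod_cast two_pow_rr q

theorem one_le_mm (q : ℕ) : (4 : ℝ) ≤ mm q := by exact_mod_cast four_le_mm q

theorem lt_mm' (i : ℕ) : (i : ℝ) < mm i := by exact_mod_cast lt_mm i

theorem sum_half_le (I : Finset ℕ) : ∑ l ∈ I, ((1 : ℝ) / 2) ^ l ≤ 2 := by
  have h := Summable.sum_le_tsum I (fun l _ => by positivity) summable_geometric_two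
  rwa [tsum_geometric_two] at h

/-! ### permanence -/

theorem Bd.nonneg {x : V} {C : ℝ} (h : Bd C x) : 0 ≤ C :=
  (norm_nonneg _).trans (h (.base 0) trivial 0 0)

theorem Bd.cut {x : V} {C : ℝ} (h : Bd C x) (a b : ℕ) : Bd C (GM.cut a b x) := by
  intro t ht α β
  rw [cut_cut]
  exact h t ht _ _

theorem Bd.Sv {x : V} {C : ℝ} (h : Bd C x) (v : Sg) : Bd C (GM.Sv v x) := by
  intro t ht α β
  rw [cut_Sv]
  exact h (.tr v t) ht _ _

theorem Bd.add {x y : V} {C D : ℝ} (h : Bd C x) (h' : Bd D y) : Bd (C + D) (x + y) := by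
  intro t ht a b
  rw [map_add, map_add]
  exact (norm_add_le _ _).trans (add_le_add (h t ht a b) (h' t ht a b))

theorem Bd.smul {x : V} {C : ℝ} (h : Bd C x) (c : ℂ) : Bd (‖c‖ * C) (c • x) := by
  intro t ht a b
  rw [map_smul, map_smul, norm_smul]
  exact mul_le_mul_of_nonneg_left (h t ht a b) (norm_nonneg _)

theorem Bd.mono {x : V} {C D : ℝ} (h : Bd C x) (hCD : C ≤ D) : Bd D x :=
  fun t ht a b => (h t ht a b).trans hCD

theorem Bd.zero {C : ℝ} (hC : 0 ≤ C) : Bd C (0 : V) := by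
  intro t ht a b
  rw [map_zero, map_zero, norm_zero]
  exact hC

theorem Bd.sum {ι : Type} (I : Finset ι) (x : ι → V) (C : ι → ℝ) (h : ∀ i ∈ I, Bd (C i) (x i)) :
    Bd (∑ i ∈ I, C i) (∑ i ∈ I, x i) := by
  intro t ht a b
  rw [map_sum, map_sum]
  exact (norm_sum_le _ _).trans (Finset.sum_le_sum fun i hi => h i hi t ht a b)

theorem Succ.Sv {x : ℕ → V} {A B : ℕ → ℕ} (h : Succ x A B) (v : Sg) :
    Succ (fun l => GM.Sv v (x l)) (fun l => fv v (A l)) (fun l => fv v (B l)) :=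
  ⟨fun l => (h.1 l).Sv v, fun l => fv_mono v (h.2.1 l), fun l l' hl => fv_mono v (h.2.2 l l' hl)⟩

theorem le_fv (v : Sg) (a : ℕ) : a / 2 ^ v.k2 ≤ fv v a + 1 := by
  unfold fv
  have h1 : 0 < 2 ^ v.k1 := by positivity
  have h2 : 0 < 2 ^ v.k2 := by positivity
  have h3 := v.h2
  have h4 : a / 2 ^ v.k2 ≤ (a - v.r2 + 2 ^ v.k2 - 1) / 2 ^ v.k2 + 1 := by
    have h5 : a ≤ (a - v.r2 + 2 ^ v.k2 - 1) + 2 ^ v.k2 := by omega
    calc a / 2 ^ v.k2 ≤ ((a - v.r2 + 2 ^ v.k2 - 1) + 2 ^ v.k2) / 2 ^ v.k2 :=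
          Nat.div_le_div_right h5
      _ = _ := Nat.add_div_right _ h2
  have h6 := Nat.le_mul_of_pos_left ((a - v.r2 + 2 ^ v.k2 - 1) / 2 ^ v.k2) h1
  omega

theorem tendsto_fv (v : Sg) : Tendsto (fv v) atTop atTop := by
  have h2 : 0 < 2 ^ v.k2 := by positivity
  rw [tendsto_atTop_atTop]
  intro b
  refine ⟨2 ^ v.k2 * (b + 1), fun a ha => ?_⟩
  have h3 := le_fv v a
  have h4 : b + 1 ≤ a / 2 ^ v.k2 := (Nat.le_div_iff_mul_le h2).2 (by rw [mul_comm]; exact ha)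
  omega

theorem RIS.Sv {C : ℝ} {u : ℕ → V} {A B J : ℕ → ℕ} (h : RIS C u A B J) (v : Sg) :
    RIS C (fun l => GM.Sv v (u l)) (fun l => fv v (A l)) (fun l => fv v (B l)) J where
  hC := h.hC
  succ := h.succ.Sv v
  tend := (tendsto_fv v).comp h.tend
  bd l := (h.bd l).Sv v
  mono := h.mono
  low l t ht i hi hil α β := by
    rw [cut_Sv]
    exact h.low l (.tr v t) ht i hi hil _ _
  high l t ht i hi hil α β := by
    rw [cut_Sv]
    exact h.high l (.tr v t) ht i hi hil _ _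

theorem RIS.sub {C : ℝ} {u : ℕ → V} {A B J : ℕ → ℕ} (h : RIS C u A B J) {φ : ℕ → ℕ}
    (hφ : StrictMono φ) :
    RIS C (fun l => u (φ l)) (fun l => A (φ l)) (fun l => B (φ l)) (fun l => J (φ l)) where
  hC := h.hC
  succ := ⟨fun l => h.succ.1 _, fun l => h.succ.2.1 _, fun l l' hl => h.succ.2.2 _ _ (hφ hl)⟩
  tend := h.tend.comp hφ.tendsto_atTop
  bd l := h.bd _
  mono := h.mono.comp hφ
  low l t ht i hi hil α β := h.low _ t ht i hi hil α β
  high l t ht i hi hil α β := by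
    refine (h.high (φ l) t ht i hi ((h.mono.monotone ?_).trans hil) α β).trans ?_
    · exact Nat.succ_le_of_lt (hφ (Nat.lt_succ_self l))
    · exact pow_le_pow_of_le_one (by norm_num) (by norm_num) (hφ.id_le l)

theorem RIS.phase {C : ℝ} {u : ℕ → V} {A B J : ℕ → ℕ} (h : RIS C u A B J) {θ : ℕ → ℂ}
    (hθ : ∀ l, ‖θ l‖ ≤ 1) : RIS C (fun l => θ l • u l) A B J := by
  have key : ∀ (l : ℕ) (t : Tr) (α β : ℕ), ‖ev t (cut α β (θ l • u l))‖ ≤ ‖ev t (cut α β (u l))‖ := by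
    intro l t α β
    rw [map_smul, map_smul, norm_smul]
    exact mul_le_of_le_one_left (norm_nonneg _) (hθ l)
  exact
    { hC := h.hC
      succ := ⟨fun l n hn => by
        show θ l • u l n = 0
        rw [h.succ.1 l n hn, smul_zero], h.succ.2.1,
        h.succ.2.2⟩
      tend := h.tend
      bd := fun l t ht α β => (key l t α β).trans (h.bd l t ht α β)
      mono := h.mono
      low := fun l t ht i hi hil α β => (key l t α β).trans (h.low l t ht i hi hil α β)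
      high := fun l t ht i hi hil α β => (key l t α β).trans (h.high l t ht i hi hil α β) }

theorem RIS.mono_C {C : ℝ} {u : ℕ → V} {A B J : ℕ → ℕ} (h : RIS C u A B J) {D : ℝ} (hCD : C ≤ D) :
    RIS D u A B J where
  hC := h.hC.trans hCD
  succ := h.succ
  tend := h.tend
  bd l := (h.bd l).mono hCD
  mono := h.mono
  low l t ht i hi hil α β := by
    refine (h.low l t ht i hi hil α β).trans ?_
    have := mm_pos' i
    gcongr
  high := h.high

theorem Av.Sv {C : ℝ} {q : ℕ} {y : V} (h : Av C q y) (v : Sg) : Av C q (GM.Sv v y) where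
  bd := h.bd.Sv v
  low t ht i hi hil α β := by
    rw [cut_Sv]
    exact h.low (.tr v t) ht i hi hil _ _
  high t ht i hi α β := by
    rw [cut_Sv]
    exact h.high (.tr v t) ht i hi _ _

theorem Sv_id (x : V) : Sv Sg.id x = x := by
  funext n
  simp [Sv_apply, Sg.id, Nat.mod_one]

end

end Pool.Agent.Q73.GM
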