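import Pool.Agent.Q73.GM.Stm1

set_option autoImplicit false

namespace Pool.Agent.Q73.GM.COMP

open Finset Filter Topology

/-- first case: the second spread is read through a finer partition -/
theorem case1 (k1 r1 k2 r2 k1' r1' k2' r2' : ℕ) (h1 : r1 < 2 ^ k1) (h2 : r2 < 2 ^ k2)
    (h1' : r1' < 2 ^ k1') (h2' : r2' < 2 ^ k2') (hk : k1' ≤ k2) :
    (∃ w : Sg, ∀ x : V, Sv ⟨k1, r1, k2, r2, h1, h2⟩ (Sv ⟨k1', r1', k2', r2', h1', h2'⟩ x) = Sv w x) ∨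
      ∀ x : V, Sv ⟨k1, r1, k2, r2, h1, h2⟩ (Sv ⟨k1', r1', k2', r2', h1', h2'⟩ x) = 0 := by
  obtain ⟨d, rfl⟩ := Nat.exists_eq_add_of_le hk
  have hp : 0 < 2 ^ k1' := by positivity
  have e1 : ∀ m, (2 ^ (k1' + d) * m + r2) % 2 ^ k1' = r2 % 2 ^ k1' := fun m => by
    rw [pow_add, mul_assoc, Nat.mul_add_mod]
  have e2 : ∀ m, (2 ^ (k1' + d) * m + r2) / 2 ^ k1' = 2 ^ d * m + r2 / 2 ^ k1' := fun m => by
    rw [pow_add, mul_assoc, Nat.mul_add_div hp]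
  by_cases h : r2 % 2 ^ k1' = r1'
  · left
    have h3 : r2 / 2 ^ k1' < 2 ^ d := by
      rw [Nat.div_lt_iff_lt_mul hp, ← pow_add, add_comm d]
      exact h2
    have h4 : 2 ^ k2' * (r2 / 2 ^ k1') + r2' < 2 ^ (k2' + d) := by
      have h5 : 2 ^ k2' * (r2 / 2 ^ k1' + 1) ≤ 2 ^ k2' * 2 ^ d := Nat.mul_le_mul_left _ h3
      rw [pow_add]
      rw [mul_add, mul_one] at h5
      omega
    refine ⟨⟨k1, r1, k2' + d, 2 ^ k2' * (r2 / 2 ^ k1') + r2', h1, h4⟩, fun x => ?_⟩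
    funext n
    simp only [Sv_apply]
    by_cases hn : n % 2 ^ k1 = r1
    · rw [if_pos hn, if_pos hn, e1, if_pos h, e2]
      congr 1
      rw [pow_add]
      ring
    · rw [if_neg hn, if_neg hn]
  · right
    intro x
    funext n
    simp only [Sv_apply]
    by_cases hn : n % 2 ^ k1 = r1
    · rw [if_pos hn, e1, if_neg h]
      rfl
    · rw [if_neg hn]
      rfl

/-- second case -/
theorem case2 (k1 r1 k2 r2 k1' r1' k2' r2' : ℕ) (h1 : r1 < 2 ^ k1) (h2 : r2 < 2 ^ k2)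
    (h1' : r1' < 2 ^ k1') (h2' : r2' < 2 ^ k2') (hk : k2 ≤ k1') :
    (∃ w : Sg, ∀ x : V, Sv ⟨k1, r1, k2, r2, h1, h2⟩ (Sv ⟨k1', r1', k2', r2', h1', h2'⟩ x) = Sv w x) ∨
      ∀ x : V, Sv ⟨k1, r1, k2, r2, h1, h2⟩ (Sv ⟨k1', r1', k2', r2', h1', h2'⟩ x) = 0 := by
  obtain ⟨d, rfl⟩ := Nat.exists_eq_add_of_le hk
  have hp : 0 < 2 ^ k2 := by positivity
  have e0 : ∀ m, (2 ^ k2 * m + r2) % 2 ^ k2 = r2 := fun m => by
    rw [Nat.mul_add_mod, Nat.mod_eq_of_lt h2]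
  have e0' : ∀ m, (2 ^ k2 * m + r2) / 2 ^ k2 = m := fun m => by
    rw [Nat.mul_add_div hp, Nat.div_eq_of_lt h2, add_zero]
  have e1 : ∀ m, (2 ^ k2 * m + r2) % 2 ^ (k2 + d) = r2 + 2 ^ k2 * (m % 2 ^ d) := fun m => by
    rw [pow_add, Nat.mod_mul, e0, e0']
  have e2 : ∀ m, (2 ^ k2 * m + r2) / 2 ^ (k2 + d) = m / 2 ^ d := fun m => by
    rw [pow_add, ← Nat.div_div_eq_div_mul, e0']
  have hr := Nat.div_add_mod r1' (2 ^ k2)
  by_cases h : r1' % 2 ^ k2 = r2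
  · left
    rw [h] at hr
    have hd : r1' / 2 ^ k2 < 2 ^ d := by
      rw [Nat.div_lt_iff_lt_mul hp, ← pow_add, add_comm d]
      exact h1'
    have h4 : 2 ^ k1 * (r1' / 2 ^ k2) + r1 < 2 ^ (k1 + d) := by
      have h5 : 2 ^ k1 * (r1' / 2 ^ k2 + 1) ≤ 2 ^ k1 * 2 ^ d := Nat.mul_le_mul_left _ hd
      rw [pow_add]
      rw [mul_add, mul_one] at h5
      omega
    refine ⟨⟨k1 + d, 2 ^ k1 * (r1' / 2 ^ k2) + r1, k2', r2', h4, h2'⟩, fun x => ?_⟩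
    funext n
    simp only [Sv_apply]
    have e3 : n % 2 ^ (k1 + d) = n % 2 ^ k1 + 2 ^ k1 * (n / 2 ^ k1 % 2 ^ d) := by
      rw [pow_add, Nat.mod_mul]
    have e4 : n / 2 ^ (k1 + d) = n / 2 ^ k1 / 2 ^ d := by
      rw [pow_add, Nat.div_div_eq_div_mul]
    rw [e1, e2, e3, e4]
    by_cases hn : n % 2 ^ k1 = r1
    · rw [if_pos hn, hn]
      by_cases hm : n / 2 ^ k1 % 2 ^ d = r1' / 2 ^ k2
      · rw [if_pos, if_pos]
        · rw [hm]; ring
        · rw [hm]; omega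
      · rw [if_neg, if_neg]
        · intro h6
          apply hm
          have h7 : 2 ^ k1 * (n / 2 ^ k1 % 2 ^ d) = 2 ^ k1 * (r1' / 2 ^ k2) := by omega
          exact Nat.eq_of_mul_eq_mul_left (by positivity) h7
        · intro h6
          apply hm
          have h7 : 2 ^ k2 * (n / 2 ^ k1 % 2 ^ d) = 2 ^ k2 * (r1' / 2 ^ k2) := by omega
          exact Nat.eq_of_mul_eq_mul_left (by positivity) h7
    · rw [if_neg hn, if_neg]
      intro h6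
      apply hn
      have h7 := congrArg (fun z => z % 2 ^ k1) h6
      simp only [Nat.add_mul_mod_self_left, Nat.mod_mod, Nat.mul_add_mod, Nat.mod_eq_of_lt h1] at h7
      exact h7
  · right
    intro x
    funext n
    simp only [Sv_apply]
    by_cases hn : n % 2 ^ k1 = r1
    · rw [if_pos hn, e1, if_neg]
      · rfl
      · intro h6
        apply h
        rw [← h6, Nat.add_mul_mod_self_left, Nat.mod_eq_of_lt h2]
    · rw [if_neg hn]
      rfl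

end Pool.Agent.Q73.GM.COMP

namespace Pool.Agent.Q73.GM

theorem t_COMP : S_COMP := by
  intro v v'
  obtain ⟨k1, r1, k2, r2, h1, h2⟩ := v
  obtain ⟨k1', r1', k2', r2', h1', h2'⟩ := v'
  rcases le_total k1' k2 with h | h
  · exact COMP.case1 k1 r1 k2 r2 k1' r1' k2' r2' h1 h2 h1' h2' h
  · exact COMP.case2 k1 r1 k2 r2 k1' r1' k2' r2' h1 h2 h1' h2' h

end Pool.Agent.Q73.GM
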