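import Pool.Agent.Q73.GM.Stm1

set_option autoImplicit false

/-! Project GM (helper73), lemma ELS: evaluation is bounded by the sum of the coordinates. -/

namespace Pool.Agent.Q73.GM

open Finset Filter Topology

namespace ELS

/-- at most one coordinate, of modulus at most `M` -/
def One (M : ℝ) (x : V) : Prop := ∃ n, (∀ k, k ≠ n → x k = 0) ∧ ‖x n‖ ≤ M

theorem One.cut {M : ℝ} {x : V} (h : One M x) (hM : 0 ≤ M) (a b : ℕ) : One M (GM.cut a b x) := by
  obtain ⟨n, h1, h2⟩ := h
  refine ⟨n, fun k hk => ?_, ?_⟩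
  · rw [cut_apply, h1 k hk, ite_self]
  · rw [cut_apply]
    split_ifs
    · exact h2
    · rw [norm_zero]
      exact hM

theorem One.Sv {M : ℝ} {x : V} (h : One M x) (hM : 0 ≤ M) (v : Sg) : One M (GM.Sv v x) := by
  obtain ⟨n, h1, h2⟩ := h
  refine ⟨2 ^ v.k1 * ((n - v.r2) / 2 ^ v.k2) + v.r1, fun k hk => ?_, ?_⟩
  · rw [Sv_apply]
    split_ifs with h3
    · apply h1
      intro h4
      apply hk
      have h5 : (n - v.r2) / 2 ^ v.k2 = k / 2 ^ v.k1 := by
        rw [← h4, Nat.add_sub_cancel, Nat.mul_div_cancel_left _ (by positivity)]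
      rw [h5, ← h3]
      exact (Nat.div_add_mod k _).symm
    · rfl
  · rw [Sv_apply]
    split_ifs with h3
    · by_cases h4 : 2 ^ v.k2 * ((2 ^ v.k1 * ((n - v.r2) / 2 ^ v.k2) + v.r1) / 2 ^ v.k1) + v.r2 = n
      · rw [h4]
        exact h2
      · rw [h1 _ h4, norm_zero]
        exact hM
    · rw [norm_zero]
      exact hM

/-- at most one child sees a single point -/
theorem sum_one {M : ℝ} {x : V} (h : One M x) (hM : 0 ≤ M) {d : ℕ} {c : Fin d → ℚ × ℚ}
    {a b : Fin d → ℕ} {t : Fin d → Tr} (hc : ∀ i, ‖cc (c i)‖ ≤ 1)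
    (hsucc : ∀ i i', i < i' → b i ≤ a i')
    (ht : ∀ i, ∀ x : V, One M x → ‖ev (t i) x‖ ≤ M) :
    ‖∑ i : Fin d, cc (c i) * ev (t i) (GM.cut (a i) (b i) x)‖ ≤ M := by
  obtain ⟨n, h1, h2⟩ := h
  by_cases hex : ∃ i₀, a i₀ ≤ n ∧ n < b i₀
  · obtain ⟨i₀, h3, h4⟩ := hex
    rw [Finset.sum_eq_single i₀]
    · rw [norm_mul]
      have h5 := ht i₀ _ (One.cut ⟨n, h1, h2⟩ hM (a i₀) (b i₀))
      calc ‖cc (c i₀)‖ * ‖ev (t i₀) (GM.cut (a i₀) (b i₀) x)‖ ≤ 1 * M :=
            mul_le_mul (hc i₀) h5 (norm_nonneg _) zero_le_one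
        _ = M := one_mul M
    · intro i _ hi
      have h6 : GM.cut (a i) (b i) x = 0 := by
        funext k
        rw [cut_apply]
        split_ifs with h7
        · apply h1
          rintro rfl
          rcases lt_or_gt_of_ne hi with h8 | h8
          · have := hsucc i i₀ h8
            omega
          · have := hsucc i₀ i h8
            omega
        · rfl
      rw [h6, map_zero, mul_zero]
    · intro h3
      exact absurd (Finset.mem_univ _) h3
  · rw [Finset.sum_eq_zero]
    · simpa using hM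
    · intro i _
      have h6 : GM.cut (a i) (b i) x = 0 := by
        funext k
        rw [cut_apply]
        split_ifs with h7
        · apply h1
          rintro rfl
          exact hex ⟨i, h7⟩
        · rfl
      rw [h6, map_zero, mul_zero]

theorem ev_one (t : Tr) : t.Wf → ∀ M : ℝ, 0 ≤ M → ∀ x : V, One M x → ‖ev t x‖ ≤ M := by
  induction t with
  | base k =>
    intro _ M hM x h
    obtain ⟨n, h1, h2⟩ := h
    rw [ev_base]
    by_cases hk : k = n
    · rw [hk]; exact h2
    · rw [h1 k hk, norm_zero]; exact hM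
  | node j d c a b t ih =>
    intro hw M hM x h
    obtain ⟨hd, hwt, hc, hab, hsucc, -⟩ := hw
    rw [ev_node, norm_mul, norm_inv, Complex.norm_natCast]
    have h1 := sum_one h hM hc hsucc fun i x hx => ih i (hwt i) M hM x hx
    have h2 : ((mm j : ℝ))⁻¹ ≤ 1 := (inv_mm_le j).trans (by norm_num)
    calc ((mm j : ℝ))⁻¹ * ‖∑ i : Fin d, cc (c i) * ev (t i) (GM.cut (a i) (b i) x)‖ ≤ 1 * M :=
          mul_le_mul h2 h1 (norm_nonneg _) zero_le_one
      _ = M := one_mul M
  | tr v t ih =>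
    intro hw M hM x h
    exact ih hw M hM _ (h.Sv hM v)
  | cv d c a b t ih =>
    intro hw M hM x h
    rw [ev_cv]
    refine (norm_sum_le _ _).trans ?_
    calc ∑ i : Fin d, ‖cc (c i) * ev (t i) (GM.cut (a i) (b i) x)‖ ≤ ∑ i : Fin d, ‖cc (c i)‖ * M := by
          refine Finset.sum_le_sum fun i _ => ?_
          rw [norm_mul]
          exact mul_le_mul_of_nonneg_left (ih i (hw.1 i) M hM _ (h.cut hM _ _)) (norm_nonneg _)
      _ = (∑ i : Fin d, ‖cc (c i)‖) * M := by rw [Finset.sum_mul]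
      _ ≤ 1 * M := mul_le_mul_of_nonneg_right hw.2 hM
      _ = M := one_mul M

theorem ev_one_wt (t : Tr) : t.Wf → ∀ j, t.wt = j + 1 → ∀ M : ℝ, 0 ≤ M → ∀ x : V, One M x →
    ‖ev t x‖ ≤ (mm j : ℝ)⁻¹ * M := by
  induction t with
  | base k =>
    intro _ j hj
    simp [Tr.wt] at hj
  | node i d c a b t _ =>
    intro hw j hj M hM x h
    have hji : i = j := by simpa [Tr.wt] using hj
    subst hji
    obtain ⟨hd, hwt, hc, hab, hsucc, -⟩ := hw
    rw [ev_node, norm_mul, norm_inv, Complex.norm_natCast]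
    have h1 := sum_one h hM hc hsucc fun i x hx => ev_one (t i) (hwt i) M hM x hx
    exact mul_le_mul_of_nonneg_left h1 (by positivity)
  | tr v t ih =>
    intro hw j hj M hM x h
    exact ih hw j hj M hM _ (h.Sv hM v)
  | cv d c a b t _ =>
    intro _ j hj
    simp [Tr.wt] at hj

theorem one_pt (x : V) (k : ℕ) : One ‖x k‖ (GM.cut k (k + 1) x) := by
  refine ⟨k, fun n hn => ?_, ?_⟩
  · rw [cut_apply, if_neg]
    omega
  · rw [cut_apply, if_pos ⟨le_rfl, Nat.lt_succ_self k⟩]

theorem eq_sum {A B : ℕ} {x : V} (h : OnLv A B x) : x = ∑ k ∈ Ico A B, GM.cut k (k + 1) x := by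
  funext n
  rw [Finset.sum_apply]
  simp only [cut_apply]
  by_cases hn : n ∈ Ico A B
  · rw [Finset.sum_eq_single n]
    · rw [if_pos ⟨le_rfl, Nat.lt_succ_self n⟩]
    · intro k _ hk
      rw [if_neg]
      omega
    · intro h1
      exact absurd hn h1
  · rw [Finset.sum_eq_zero]
    · exact h n (by rw [Finset.mem_Ico] at hn; omega)
    · intro k hk
      rw [if_neg]
      intro h1
      have : k = n := by omega
      subst this
      exact hn hk

end ELS

open ELS

theorem t_ELS : S_ELS := by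
  intro A B x hx t ht a b
  have h0 : ∀ k, ‖GM.cut a b x k‖ ≤ ‖x k‖ := by
    intro k
    rw [cut_apply]
    split_ifs
    · exact le_rfl
    · rw [norm_zero]
      exact norm_nonneg _
  have h1 : ev t (GM.cut a b x) = ∑ k ∈ Ico A B, ev t (GM.cut k (k + 1) (GM.cut a b x)) := by
    rw [← map_sum, ← eq_sum (hx.cutR a b)]
  refine ⟨?_, fun i hi => ?_⟩
  · rw [h1]
    refine (norm_sum_le _ _).trans (Finset.sum_le_sum fun k _ => ?_)
    exact (ev_one t ht _ (norm_nonneg _) _ (one_pt _ k)).trans (h0 k)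
  · rw [h1, Finset.mul_sum]
    refine (norm_sum_le _ _).trans (Finset.sum_le_sum fun k _ => ?_)
    refine (ev_one_wt t ht i hi _ (norm_nonneg _) _ (one_pt _ k)).trans ?_
    exact mul_le_mul_of_nonneg_left (h0 k) (by positivity)

end Pool.Agent.Q73.GM
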