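import Pool.Agent.Q73.GM.Stm2

set_option autoImplicit false

namespace Pool.Agent.Q73.GM

open Finset Filter Topology

theorem t_FIN : S_FIN := by
  intro m
  have h1 : (Set.Iic ((m, 2 ^ m, m, 2 ^ m) : ℕ × ℕ × ℕ × ℕ)).Finite := Set.finite_Iic _
  refine (h1.preimage Sg.toProd_injective.injOn).subset ?_
  intro v hv
  obtain ⟨h2, h3⟩ := hv
  have h4 : 2 ^ v.k1 ≤ 2 ^ m := Nat.pow_le_pow_right (by norm_num) h2
  have h5 : 2 ^ v.k2 ≤ 2 ^ m := Nat.pow_le_pow_right (by norm_num) h3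
  have h6 := v.h1
  have h7 := v.h2
  have h8 : v.r1 ≤ 2 ^ m := by omega
  have h9 : v.r2 ≤ 2 ^ m := by omega
  exact ⟨h2, h8, h3, h9⟩

end Pool.Agent.Q73.GM
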