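import Pool.Agent.Q73.GM.Sp
import Pool.Agent.Q73.GM.Stm1

set_option autoImplicit false

/-!
Project GM (helper73): statements of the lemmas on the space `XX` (second part). Operators `T` are
only REAL linear (`XX →L[ℝ] XX`), so that the final theorem holds for both scalar fields.
`Ris C z`: the sequence `z : ℕ → XX` is rapidly increasing. `Rx a b`: restriction to `[a, b)`.
`Sx v`: spreads. `op b`, `b : LS = Sg →₀ ℂ`: linear combinations of the spreads.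
For real `r` and `x : XX`: `(r : ℂ) • x = r • x` (`Complex.coe_smul` or `RCLike.real_smul_eq_coe_smul`).
-/

namespace Pool.Agent.Q73.GM

open Finset Filter Topology
open scoped BoundedContinuousFunction

noncomputable section

/-- LOW: lower estimates. Proof. Let `I = {l_0 < l_1 < ...}` (`Finset.orderEmbOfFin`). For `ε > 0`
and each `i` there is a tree `t_i` and `[α_i, β_i)` with
`‖ev t_i (cut α_i β_i (cut (a l_i) (b l_i) (cx x)))‖ ≥ ‖Rx (a l_i) (b l_i) x‖ - ε`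
(`exists_functional`, `cx_Rx`), and `c_i : ℚ × ℚ` with `‖cc c_i‖ ≤ 1` such that the real part of
`cc c_i * (that value)` is at least `‖Rx ..‖ - 2 ε` (approximate the phase by a Gaussian rational of
modulus at most one; compare `exists_approx` in HI/Op2). The children `cv 1 (1,0) α_i β_i t_i` with
the windows `[a l_i, b l_i)` form an admissible node of the even weight `q`; apply `XX.bd` with this
node and `cut 0 N`, `N` large. Then `ε → 0`. -/
def S_LOW : Prop := ∀ q : ℕ, q % 2 = 0 → ∀ (a b : ℕ → ℕ), (∀ l, a l ≤ b l) →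
  (∀ l l', l < l' → b l ≤ a l') → ∀ I : Finset ℕ, #I ≤ nn q → ∀ x : XX,
    ∑ l ∈ I, ‖Rx (a l) (b l) x‖ ≤ mm q * ‖x‖

/-- TAIL: the truncations converge. Proof. Let `t_N = x - Rx 0 N x`. `‖t_N‖` is antitone in `N`
(`t_N' = t_N - Rx 0 N' t_N`, i.e. a restriction; use trees: `ev t (cut a b (cx t_N))` is
`ev t (cut (max a N) b (cx x))`). If it does not tend to `0` there is `δ > 0` with `δ < ‖t_N‖` for all
`N`; by `exists_functional` there is `M > N` with `δ < ‖Rx N M x‖`. So there are successive windows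
`[N_l, N_{l+1})` with `δ < ‖Rx N_l N_{l+1} x‖`, and by LOW with `I = range (nn q)`, `q` even:
`nn q * δ ≤ mm q * ‖x‖`, impossible for large `q` since `(mm q)^4 ≤ nn q`. -/
def S_TAIL : Prop := ∀ x : XX, Tendsto (fun N => Rx 0 N x) atTop (𝓝 x)

/-- WN: rapidly increasing sequences are weakly null. Proof. Otherwise there are `δ > 0` and a
subsequence (`Filter.extraction_of_frequently_atTop`, `Ris.sub`) with `|φ (z l)| ≥ δ` for all `l`, and
signs `θ l = ±1` (`Ris.phase`) with `φ (θ l • z l) ≥ δ`. Let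
`y = ((mm q : ℂ) / nn q) • ∑ l ∈ range (nn q), θ l • z l`; by AVG (`XX.norm_le`) `‖y‖ ≤ 4 C`, and
`φ y ≥ mm q * δ`. So `mm q * δ ≤ 4 C ‖φ‖` for all `q`, impossible. -/
def S_WN : Prop := ∀ (C : ℝ) (z : ℕ → XX), Ris C z → ∀ φ : XX →L[ℝ] ℝ,
  Tendsto (fun l => φ (z l)) atTop (𝓝 0)

/-- LO. Proof. `‖Rx 0 N w‖ ≤ ∑ n ∈ Ico 0 N, ‖cx w n‖` by ELS and `XX.norm_le`; the real and imaginary
parts of `cx (T x) n` are real functionals of `x` (`coordL`), use WN. -/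
def S_LO : Prop := ∀ (C : ℝ) (z : ℕ → XX), Ris C z → ∀ (T : XX →L[ℝ] XX) (N : ℕ),
  Tendsto (fun l => Rx 0 N (T (z l))) atTop (𝓝 0)

/-- `[w s, w (s+1))` is a window for `y s` and `T (y s)` -/
structure Win (ρ : ℝ) (T : XX →L[ℝ] XX) (y : ℕ → XX) (A B w : ℕ → ℕ) : Prop where
  mono : StrictMono w
  lev : ∀ s, OnLv (A s) (B s) (cx (y s))
  loA : ∀ s, (w s + 1) * 2 ^ w s ≤ A s
  hiB : ∀ s, (B s + 1) * 2 ^ w s ≤ w (s + 1)
  lo : ∀ s, ‖Rx 0 (w s) (T (y s))‖ ≤ ρ * (1 / 4) ^ s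
  hi : ∀ s' s, s' < s → ‖T (y s') - Rx 0 (w s) (T (y s'))‖ ≤ ρ * (1 / 4) ^ s

/-- SUPP: the supports of the translates. Proof. If `Sv v x n ≠ 0` then `n = 2^k1 m + r1` and
`A ≤ 2^k2 m + r2 < B`. `r2 < 2^k2 ≤ 2^w`, so `2^k2 m > w 2^w`, so `m ≥ w`, `n ≥ m ≥ w`. And `m < B`,
so `n < 2^k1 (m + 1) ≤ 2^w (B + 1) ≤ w'`. -/
def S_SUPP : Prop := ∀ (v : Sg) (w w' A B : ℕ) (x : V), v.In w → OnLv A B x →
  (w + 1) * 2 ^ w ≤ A → (B + 1) * 2 ^ w ≤ w' → OnLv w w' (Sv v x)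

/-- SEL: selection of a joint rapidly increasing sequence. `z s N` is a rapidly increasing sequence
for all `s`, `N`, and `Q s N l` holds for infinitely many `l`.
Proof: recursion over `s`. The state before step `s`: `w s`, the list of the vectors
`y s' = z s' (w s') (φ s')` with `s' < s`, and a number `j` (`= J^(s-1) (φ (s-1) + 1)`). Take `A', B', J'` for
`z s (w s)` from `Ris`; choose `l = φ s ≥ s` with `Q s (w s) l`, `(w s + 1) 2^(w s) ≤ A' l`,
`j ≤ J' l` (and `J' l` larger than the previous value), `‖Rx 0 (w s) (T (z s (w s) l))‖ ≤ ρ (1/4)^s`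
(by LO; all but the first condition hold for all large `l`). Put `A s = A' l`, `B s = B' l`,
`J s = J' l`, new `j = J' (l + 1)`. Then choose `w (s+1) > w s` with `(B s + 1) 2^(w s) ≤ w (s+1)` and
`‖T (y s') - Rx 0 (w (s+1)) (T (y s'))‖ ≤ ρ (1/4)^(s+1)` for all `s' ≤ s` (by TAIL).
RIS: `B s ≤ w (s+1) ≤ A (s')` for `s < s'`; `high` at `s`: `i ≥ J (s+1) ≥ J' (φ s + 1)` gives
`(1/2)^(φ s) ≤ (1/2)^s`; `tend`: `A s ≥ w s ≥ s`. -/
def S_SEL : Prop := ∀ (ρ : ℝ) (T : XX →L[ℝ] XX) (C : ℝ) (z : ℕ → ℕ → ℕ → XX)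
  (Q : ℕ → ℕ → ℕ → Prop), 0 < ρ → (∀ s N, Ris C (z s N)) → (∀ s N, ∃ᶠ l in atTop, Q s N l) →
  ∃ w φ A B J : ℕ → ℕ, RIS C (fun s => cx (z s (w s) (φ s))) A B J ∧
    Win ρ T (fun s => z s (w s) (φ s)) A B w ∧ ∀ s, Q s (w s) (φ s)

/-- the data for the contradiction with special functionals -/
structure CD (T : XX →L[ℝ] XX) (C : ℝ) (y : ℕ → XX) (A B J w : ℕ → ℕ) (f : ℕ → Tr) (η : ℕ → ℝ) :
    Prop where
  ris : RIS C (fun s => cx (y s)) A B J
  win : Win 1 T y A B w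
  wf : ∀ s, (f s).Wf
  eta : Tendsto η atTop (𝓝 0)
  small : ∀ s (v : Sg), v.In (w s) → ‖ev (f s) (cut (w s) (w (s + 1)) (Sv v (cx (y s))))‖ ≤ η s

/-- CDEP: the dependent sequences. Port of the first part of HI/Op1 (namespace `Contra`: `mk`, `qq`,
`St`, `qk`, `ik`, `Gk` and their lemmas, recursion over the list of the previous functionals).
`q 0 ≥ thr p` with `q 0 % 4 = 2` and `C * nn p ≤ nn (q 0)`, `i 0` so large that `η s ≤ 1 / nn p` for
`s ≥ i 0`; `G k` as displayed; `q (k+1) = sig (List.ofFn fun i : Fin (k+1) => G i)`;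
`i (k+1) = i k + nn (q k)`. All `q k` are even (`sig_mod`), so no coding condition for the nodes `G k`.
`Dep`: `lev`: the supports `[A s, B s)` are in `[w s, w (s+1))`. `av`: AVG with
`#I = nn (q k)`. `diag` for `v`: (1) if `v.In (w (i k))` then by SUPP `Sv v (cx (y s))` is supported in
`[w s, w (s+1))` for `s ≥ i k`, so the value is
`(1 / nn (q k)) ∑ s, cc (c s) * ev (f s) (cut (w s) (w (s+1)) (Sv v (cx (y s))))`, at most
`max η s ≤ 1 / nn p`. (2) if not `v.In (w (i (k+1)))`: let `W = w (i (k+1))`; `k1 > W` or `k2 > W`, so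
`2^k1 > W` or `2^k2 > W`, and `2^k1 m + r1 < W`, `2^k2 m + r2 < W` is possible only for `m = 0`; since
`X k` and the window are below `W`, `cut (window) (Sv v (X k))` has at most one nonzero coordinate,
which is a coordinate of `X k`, of modulus at most `(mm (q k) / nn (q k)) * C` (supports of the
`y s` are disjoint); by ELS with the weight `q k`: at most `C / nn (q k) ≤ 1 / nn p`. (3) the
remaining case `v.In (w (i (k+1)))` and not `v.In (w (i k))` happens for at most one `k` (`In` is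
monotone): this is `k0`. -/
def S_CDEP : Prop := ∀ (T : XX →L[ℝ] XX) (C : ℝ) (y : ℕ → XX) (A B J w : ℕ → ℕ) (f : ℕ → Tr)
  (η : ℕ → ℝ), CD T C y A B J w f η → ∀ c : ℕ → ℚ × ℚ, (∀ s, ‖cc (c s)‖ ≤ 1) →
  ∀ p : ℕ, p % 2 = 1 → ∃ (q i : ℕ → ℕ) (G : ℕ → Tr × ℕ × ℕ),
    (∀ k, G k = (Tr.node (q k) (nn (q k)) (fun s => c (i k + s)) (fun s => w (i k + s))
      (fun s => w (i k + s + 1)) (fun s => f (i k + s)), w (i k), w (i k + nn (q k)))) ∧
    (∀ k, i (k + 1) = i k + nn (q k)) ∧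
    Dep C p (fun k => ((mm (q k) : ℂ) / nn (q k)) •
      ∑ s ∈ Ico (i k) (i k + nn (q k)), cx (y s)) q G

/-- CON: the contradiction. Port of the second part of `contra` of HI/Op1. Choose `c s : ℚ × ℚ`,
`‖cc (c s)‖ ≤ 1`, such that the real part of `cc (c s) * ev (f s) (cut .. (cx (T (y s))))` is at least
`δ / 2`. For an odd `p` take `q, i, G` from CDEP. Let
`x = ∑ k ∈ range (nn p), ((mm (q k) : ℂ) / nn (q k)) • ∑ s ∈ Ico (i k) (i (k+1)), y s`. By DBD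
`‖x‖ ≤ 8 C nn p / (mm p)^2`. The tree
`S = node p (nn p) (fun _ => (1,0)) (fun k => (G k).2.1) (fun k => (G k).2.2) (fun k => (G k).1)` is
admissible (`Dep.wt`, `q0`, `q0'`, `qs`; `hist a b t k = List.ofFn (fun i : Fin k => G i)`). Evaluate
`S` at `cx (T x)` (with `cut 0 N`, `N` large), `T x = ∑ ∑ (mm (q k) / nn (q k)) T (y s)`: the
diagonal terms give a real part at least `(1 / mm p) * nn p * δ / 2`; the off diagonal terms
(`s ≠ s'`): `‖ev (f s) (cut (w s) (w (s+1)) (cx (T (y s'))))‖ ≤ (1/4)^(max s s') ≤ (1/2)^s (1/2)^s'`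
(for `s' < s` it is a restriction of `T (y s') - Rx 0 (w s) (T (y s'))`, for `s < s'` of
`Rx 0 (w s') (T (y s'))`), with coefficients at most `1` (`(1 / mm (q k)) (mm (q k') / nn (q k'))`), so
together at most `4 / mm p`. Hence `nn p δ / 2 - 4 ≤ 8 C ‖T‖ nn p / mm p` for all odd `p`, impossible
for large `p`. -/
def S_CON : Prop := ∀ (T : XX →L[ℝ] XX) (C : ℝ) (y : ℕ → XX) (A B J w : ℕ → ℕ) (f : ℕ → Tr)
  (η : ℕ → ℝ), CD T C y A B J w f η → ∀ δ : ℝ, 0 < δ →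
  (∀ s, δ ≤ ‖ev (f s) (cut (w s) (w (s + 1)) (cx (T (y s))))‖) → False

/-- ABS: the trees are dense in the unit ball of the dual on finite sets (bipolar theorem).
Proof. Let `K ⊆ (Fin n → ℂ)` be the set of all `fun i => ∑ r, c r * ev (t r) (cut (a r) (b r) (cx (x i)))`
for finite families of admissible trees, intervals and `c r : ℂ` with `∑ ‖c r‖ ≤ 1`. `K` is convex, its
closure is closed and convex. If `D` does not meet the closure of `K`, there is (Hahn-Banach,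
`RCLike.geometric_hahn_banach_compact_closed` or the real version and extension to `ℂ`) `β : Fin n → ℂ`
and `u < v` with `re (∑ β i * k i) < u < v < re (∑ β i * d i)` for `k ∈ K`, `d ∈ D`; the supremum
over `K` of the left side is `‖∑ β i • x i‖` (one tree and a phase, `exists_functional`), which
contradicts the hypothesis. So there is an element of `K` near some `d ∈ D`; replace the `c r` by
Gaussian rationals of modulus at most `‖c r‖` (for `s : ℂ`, `ε > 0` there is `c : ℚ × ℚ` with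
`‖cc c‖ ≤ ‖s‖`, `‖cc c - s‖ ≤ ε`), this is a tree `f = cv ..`; `N` larger than all `b r`. -/
def S_ABS : Prop := ∀ (n : ℕ) (x : Fin n → XX) (D : Set (Fin n → ℂ)), IsCompact D → Convex ℝ D →
  (∀ β : Fin n → ℂ, ∃ d ∈ D, (∑ i, β i * d i).re ≤ ‖∑ i, β i • x i‖) → ∀ ε : ℝ, 0 < ε →
  ∃ (f : Tr) (N : ℕ), f.Wf ∧ ∃ d ∈ D, ∀ i, ‖ev f (cut 0 N (cx (x i))) - d i‖ ≤ ε

/-- FIN: finiteness of `F_m`. -/
def S_FIN : Prop := ∀ m : ℕ, {v : Sg | v.In m}.Finite

/-- FUN: if `x0` is far from all `op b x`, `b ∈ B_m`, there is a functional which is large at `x0` and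
small at the translates of `x`. Proof. ABS for the vectors `x0, Sx v x` (`v ∈ F_m`, finite by FIN) and
`D = {d : d_0 = ε, |d_v| ≤ ε / m}`, and `ε / (2 m)` for `ε`. Hypothesis of ABS: for given
`β_0, β_v` choose `d_v = - (ε / m) * (conj phase of β_v)`; then
`re (β_0 ε + ∑ β_v d_v) = ε re β_0 - (ε / m) ∑ |β_v|`. If this were larger than
`‖β_0 x0 + ∑ β_v Sx v x‖`, then `re β_0 > 0`; dividing by `|β_0|` (i.e. with `λ_v = - β_v / β_0`,
`b = ∑ λ_v v`): `‖x0 - op b x‖ < ε (1 - (1/m) nrm b)`; so `nrm b < m`, `InB m b`, contradiction with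
`ε < ‖x0 - op b x‖`. -/
def S_FUN : Prop := ∀ (m : ℕ) (ε : ℝ) (x0 x : XX), 1 ≤ m → 0 < ε →
  (∀ b, InB m b → ε < ‖x0 - op b x‖) →
  ∃ (f : Tr) (N : ℕ), f.Wf ∧ ε / 2 ≤ ‖ev f (cut 0 N (cx x0))‖ ∧
    ∀ v : Sg, v.In m → ‖ev f (cut 0 N (cx (Sx v x)))‖ ≤ 2 * ε / m

/-- STAR: on rapidly increasing sequences every operator is near to the set `B_m`.
Proof. Otherwise for every `m` there is `z_m` with `Ris C` and infinitely many `l` with
`ε < ‖T (z_m l) - op b (z_m l)‖` for all `b ∈ B_m`. Apply SEL with `ρ = min 1 (ε / 16)`,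
`z s N = z_{N+1}`, `Q s N l` := for all `b ∈ B_(N+1)`, `ε < ‖..‖`. For `y s` take `f', N` from FUN with
`m = w s + 1`, `x0 = T (y s)`, `x = y s`, and let `f s = cv 1 (1,0) 0 N f'`. `CD`: for `v.In (w s)`
by SUPP `Sv v (cx (y s))` is supported in `[w s, w (s+1))`, so
`ev (f s) (cut (w s) (w (s+1)) (Sv v (cx (y s)))) = ev f' (cut 0 N (cx (Sx v (y s))))`, at most
`2 ε / (w s + 1) → 0`. And `‖ev (f s) (cut (w s) (w (s+1)) (cx (T (y s))))‖ ≥ ε / 2 -
‖T (y s) - Rx (w s) (w (s+1)) (T (y s))‖ ≥ ε / 2 - 2 ρ ≥ ε / 4` (`lo`, `hi`). Contradiction by CON. -/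
def S_STAR : Prop := ∀ (T : XX →L[ℝ] XX) (C ε : ℝ), 1 ≤ C → 0 < ε → ∃ m : ℕ, ∀ z : ℕ → XX,
  Ris C z → ∀ᶠ l in atTop, ∃ b, InB m b ∧ ‖T (z l) - op b (z l)‖ ≤ ε

/-- NET: finite nets of `B_m` (in the `ℓ¹` norm, points in `B_m`). Proof: FIN and total boundedness of
bounded sets in finite dimensional spaces. -/
def S_NET : Prop := ∀ (m : ℕ) (δ : ℝ), 0 < δ → ∃ F : Finset LS, (∀ b ∈ F, InB m b) ∧
  ∀ b, InB m b → ∃ b' ∈ F, nrm (b - b') ≤ δ

/-- MM: a minimax theorem. Proof. The set `U = {t : Fin s → ℝ | ∃ b ∈ B, ∀ i, N i b < t i}` is open,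
convex, nonempty, closed under increasing coordinates, and does not contain `(c, ..., c)`. Hahn-Banach
(`geometric_hahn_banach_point_open` or `geometric_hahn_banach_open_point`): `w` with
`∑ w i * c < ∑ w i * t i` for `t ∈ U`; `w i ≥ 0` since `t i` may be increased, not all `0`;
normalise; `t i → N i b`. -/
def S_MM : Prop := ∀ (E : Type) [AddCommGroup E] [Module ℝ E] (B : Set E), Convex ℝ B → B.Nonempty →
  ∀ (s : ℕ) (N : Fin s → E → ℝ), (∀ i, ConvexOn ℝ B (N i)) → ∀ c : ℝ, (∀ b ∈ B, ∃ i, c ≤ N i b) →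
  ∃ w : Fin s → ℝ, (∀ i, 0 ≤ w i) ∧ ∑ i, w i = 1 ∧ ∀ b ∈ B, c ≤ ∑ i, w i * N i b

/-- LB: the lower estimate for sums along windows. Proof. `R_j = Rx (w j) (w (j+1))`. Let
`S x = T x - op b x`, `y = ∑ j ∈ I, lam j • u j`. By SUPP (`m ≤ j ≤ w j`) all `Sx v (u j)`,
`v ∈ b.support`, are supported in `[w j, w (j+1))`, so `R_j (op b (u j)) = op b (u j)` and
`R_j (op b (u j')) = 0` for `j' ≠ j`. Hence `‖R_j (S (u j))‖ ≥ ‖S (u j)‖ - ‖T (u j) - R_j (T (u j))‖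
≥ ‖S (u j)‖ - 2 ρ (1/4)^j`, and for `j' ≠ j`
`‖R_j (S (u j'))‖ = ‖R_j (T (u j'))‖ ≤ ρ (1/4)^(max j j') ≤ ρ (1/2)^j (1/2)^j'`. So
`∑ j ∈ I, ‖R_j (S y)‖ ≥ ∑ lam j ‖S (u j)‖ - mm q (2 ρ ∑ (1/4)^j + ρ ∑ ∑ (1/2)^(j+j'))
≥ ∑ lam j ‖S (u j)‖ - 8 ρ mm q`, and the left side is at most `mm q ‖S y‖` by LOW. -/
def S_LB : Prop := ∀ (ρ : ℝ) (T : XX →L[ℝ] XX) (u : ℕ → XX) (A B w : ℕ → ℕ), 0 ≤ ρ →
  Win ρ T u A B w → ∀ m q : ℕ, q % 2 = 0 → ∀ I : Finset ℕ, #I ≤ nn q → (∀ j ∈ I, m ≤ j) →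
  ∀ lam : ℕ → ℝ, (∀ j, 0 ≤ lam j) → (∀ j, lam j ≤ mm q) → ∀ b, InB m b →
    ∑ j ∈ I, lam j * ‖T (u j) - op b (u j)‖ - 8 * ρ * mm q ≤
      mm q * ‖T (∑ j ∈ I, lam j • u j) - op b (∑ j ∈ I, lam j • u j)‖

/-- MRG: merging of finitely many rapidly increasing sequences. Proof. `1 ≤ s`. SEL with
`ρ = δ / 8`, `z j N = z (j mod s)`, `Q` true: `u j = z (j mod s) (φ j)`, windows `w'`. For the `n`-th
vector choose an even `q_n` (increasing, `2 s ≤ mm (q_n)`, and the growth condition of RAV), let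
`κ = nn (q_n) / s` (so `s κ ≤ nn q_n` and `nn q_n ≤ mm q_n κ`), and a block of indices
`I = Ico (s a) (s (a + κ))` with `a ≥ m`, after the previous block; `I_i = {j ∈ I : j mod s = i}` has
`κ` elements. `y n = ∑ i, w i • (mm q_n / κ) • ∑ j ∈ I_i, u j`. `Av C q_n` holds for each average (AVG)
hence for the convex combination. RAV gives `RIS (4 C)`. LB with `lam j = w (j mod s) mm q_n / κ`:
`mm q_n ‖T (y n) - op b (y n)‖ ≥ ∑ lam j g (j mod s) - δ mm q_n = mm q_n (∑ w i g i - δ)`. -/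
def S_MRG : Prop := ∀ (T : XX →L[ℝ] XX) (m : ℕ) (C δ : ℝ), 1 ≤ C → 0 < δ → ∀ (s : ℕ)
  (z : Fin s → ℕ → XX), (∀ i, Ris C (z i)) → ∀ w : Fin s → ℝ, (∀ i, 0 ≤ w i) → ∑ i, w i = 1 →
  ∃ y : ℕ → XX, Ris (4 * C) y ∧ ∀ (n : ℕ) (b : LS), InB m b → ∀ g : Fin s → ℝ,
    (∀ i l, g i ≤ ‖T (z i l) - op b (z i l)‖) →
      ∑ i, w i * g i - δ ≤ ‖T (y n) - op b (y n)‖

/-- TA: every operator is near to one linear combination of the spreads on all rapidly increasing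
sequences. Proof. `m` from STAR for `(T, 4 C, ε / 8)`. Suppose that for every `b` there is `z_b` with
`Ris C` and `ε < ‖T (z_b l) - op b (z_b l)‖` for infinitely many `l`, so (subsequence) for all `l`.
NET with `δ' = ε / (16 C)`: `b_1, .., b_s`, `z_i = z_{b_i}`. Let `N i b` be the limit of
`‖T (z_i l) - op b (z_i l)‖` along the ultrafilter `hyperfilter ℕ` (bounded sequences). It is convex in
`b`, `|N i b - N i b'| ≤ C nrm (b - b')`, `N i b_i ≥ ε`. For `b ∈ B_m` some `nrm (b - b_i) ≤ δ'`, so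
`N i b ≥ 15 ε / 16`. MM (for `E = LS`, `B = {b | InB m b}`): weights `w` with
`∑ w i N i b ≥ 15 ε / 16` on `B_m`. The set of `l` with
`‖T (z_i l) - op b' (z_i l)‖ ≥ N i b' - ε / 16` for all `i` and all `b'` in the net is in the
ultrafilter, so infinite: pass to a subsequence `ψ` for which it holds for all `l`. MRG for
`z_i ∘ ψ`, `δ = ε / 16`: `y`. By STAR there are `n` and `b ∈ B_m` with
`‖T (y n) - op b (y n)‖ ≤ ε / 8`. With `b'` in the net near to `b`, for all `i, l`: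
`‖T z - op b z‖ ≥ ‖T z - op b' z‖ - δ' C ≥ N i b' - ε / 8 ≥ N i b - 3 ε / 16 =: g i`. So
`ε / 8 ≥ ∑ w i g i - ε / 16 ≥ 15 ε / 16 - 3 ε / 16 - ε / 16`, a contradiction. -/
def S_TA : Prop := ∀ (T : XX →L[ℝ] XX) (C ε : ℝ), 1 ≤ C → 0 < ε → ∃ b : LS, ∀ z : ℕ → XX,
  Ris C z → ∀ᶠ l in atTop, ‖T (z l) - op b (z l)‖ ≤ ε

/-- GERM: if `op c` is small on rapidly increasing sequences then it is small in the `ℓ¹` norm.
Proof. Let `K` be larger than all `k1, k2` of the `v ∈ c.support`, `r = k % 2^K`. For `v` in the support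
with `r % 2^k2 = r2` (the others kill `e (2^K m + r)`), `Sv v (e (2^K m + r)) = e (A_v m + B_v)`,
`A_v = 2^(K + k1 - k2)`, `B_v = 2^k1 (r / 2^k2) + r1`. If `A_v m' + B_v = A_v' m' + B_v'` for some
`m' > ` all `B`'s then `(A_v, B_v) = (A_v', B_v')` (powers of `2`: if `A_v < A_v'` then
`(A_v' - A_v) m' = B_v - B_v' ≤ B_v < m'`), and then equality holds for all `m`. So for all `m`, and
all large `m'`: `∑ n, |opV c (e (2^K m + r)) n| ≤ ∑ n, |opV c (e (2^K m' + r)) n| =: ν` (grouping the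
coefficients by the coarser partition; `ν` does not depend on the large `m'`). Choose
`m_0 < m_1 < ...` large, such that the supports of `opV c (e (2^K m_i + r))` are disjoint
(`A_v m + B_v ≥ m`). `e (2^K m_i + r)` is `RIS 1` (ERIS); take `κ` elements with
`nn q ≤ mm q κ` and `κ #(c.support) ≤ nn q` (`q` even and large), `y = (mm q / κ) ∑ e (..)`, infinitely
many such blocks with growing `q` form a `Ris 4` sequence (AVG, RAV). `op c y` has
`ℓ¹` norm `(mm q / κ) κ ν` on at most `κ #(c.support) ≤ nn q` coordinates, so LOW with windows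
`[n, n+1)` gives `mm q ν ≤ mm q ‖op c y‖ ≤ mm q δ`. -/
def S_GERM : Prop := ∀ (c : LS) (δ : ℝ),
  (∀ z : ℕ → XX, Ris 4 z → ∀ᶠ l in atTop, ‖op c (z l)‖ ≤ δ) →
  ∀ (k : ℕ) (P : Finset ℕ), ∑ n ∈ P, ‖opV c (e k) n‖ ≤ δ

/-- ALG: products. Proof: COMP; `op a (op b w) = ∑ ∑ a v * b v' • Sx v (Sx v' w)`, and `w = Sx Sg.id w`
(induction on finsupps or explicit sums of `Finsupp.single`). -/
def S_ALG : Prop := ∀ a b : LS, ∃ c : LS, ∀ w : XX, op c w = op a (op b w) - w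

/-- ELL: averages in block subspaces (James). `κ ≥ 1`. Proof. Let `q ≥ 2` be even with
`κ ≤ nn (q - 1)`, `R = rr q`; then `κ^R ≤ (2 nn (q-1) + 2)^(rr q) ≤ nn q` and `2^R = (mm q)^2 > mm q`.
Suppose there are no such `N, c`. Claim by induction on `r`: for every `j` there are real
`c n ≥ (2/κ)^r` for `n` in the block `Ico (n0 + j κ^r) (n0 + (j+1) κ^r)` with
`‖∑ c n • x n‖ = 1`. `r = 0`: `c = 1`. Step: let `y_i` be the vectors for the blocks `j κ + i`,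
`i < κ`, `Y = ∑ i, y_i`. `‖Y‖ ≥ ‖y_0‖ = 1` (restrict to a window), so `Y ≠ 0`. If `‖Y‖ ≥ κ / 2`
then `(κ / ‖Y‖) y_i` have norm at most `2`, and their sum has norm `κ`: this is what we want. So
`‖Y‖ < κ / 2` and `Y / ‖Y‖` has coefficients at least `(2/κ)^(r+1)`. For `r = R`: by LOW with the
windows `[a n, a (n+1))`, `∑ c n ≤ mm q`, so `2^R = κ^R (2/κ)^R ≤ mm q`, a contradiction. -/
def S_ELL : Prop := ∀ (x : ℕ → XX) (a : ℕ → ℕ), (∀ n, ‖x n‖ = 1) → Monotone a →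
  (∀ n, OnLv (a n) (a (n + 1)) (cx (x n))) → ∀ κ n0 : ℕ, 1 ≤ κ →
  ∃ (N : ℕ → ℕ) (c : ℕ → ℝ), n0 ≤ N 0 ∧ Monotone N ∧
    (∀ i < κ, ‖∑ n ∈ Ico (N i) (N (i + 1)), c n • x n‖ ≤ 2) ∧
    ‖∑ n ∈ Ico (N 0) (N κ), c n • x n‖ = κ

/-- RISB: rapidly increasing sequences in block subspaces. Proof. Recursion: given `J_l` and `n0`
(at least `l` and the end of the previous vector), `κ = 2 nn (J_l) mm (J_l)`, ELL gives `N, c`;
`z l = (1/κ) ∑ n ∈ Ico (N 0) (N κ), c n • x n`, `‖z l‖ = 1`. `low` with constant `3` by L1 for the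
sequence `u i = ∑ n ∈ Ico (N i) (N (i+1)), c n • cx (x n)` (`i < κ`, zero for `i ≥ κ`), for
`i < J_l` (`nn`, `mm` monotone). Then choose `J_{l+1} > J_l` with
`2^l (a (N κ) + 1) ≤ mm (J_{l+1})`: `high` by ELS, as `‖cx (z l) k‖ ≤ 1` and the support is in
`[a (N 0), a (N κ))`. -/
def S_RISB : Prop := ∀ (x : ℕ → XX) (a : ℕ → ℕ), (∀ n, ‖x n‖ = 1) → StrictMono a →
  (∀ n, OnLv (a n) (a (n + 1)) (cx (x n))) →
  ∃ (z : ℕ → XX) (N M : ℕ → ℕ) (c : ℕ → ℕ → ℝ), Ris 3 z ∧ (∀ l, ‖z l‖ = 1) ∧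
    ∀ l, l ≤ N l ∧ z l = ∑ n ∈ Ico (N l) (M l), c l n • x n

/-- BB: bounded below on a tail, uniformly along the segment. Proof. Otherwise for every `N` and every
`c > 0` there are `r ∈ [0,1]` and `w ≠ 0` with `Rx 0 N w = 0` and `‖T w + r • (S w - T w)‖ < c ‖w‖`.
Recursively (TAIL, truncate and normalise) one gets `a` strictly increasing, `x n` with `‖x n‖ = 1`,
supported in `[a n, a (n+1))`, `r n ∈ [0,1]`, `‖T (x n) + r n • (S (x n) - T (x n))‖ ≤ (1/4)^n`. Pass to a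
subsequence with `r n → r` so fast that `‖T (x n) + r • (S (x n) - T (x n))‖ ≤ 2 (1/4)^n` for all `n`
(the blocks of the subsequence are supported in `[a (ψ n), a (ψ (n+1)))`). RISB: `z l`, `‖z l‖ = 1`,
`z l = ∑ c l n • x n` over `n ≥ l`, `|c l n| ≤ 1` (restrict to the window `[a n, a (n+1))`). So
`‖T (z l) + r • (S (z l) - T (z l))‖ ≤ ∑ n ≥ l, 2 (1/4)^n → 0`, but it is at least
`c0 - c0 / 4` for large `l`. -/
def S_BB : Prop := ∀ (T S : XX →L[ℝ] XX) (c0 : ℝ), 0 < c0 → (∀ w, c0 * ‖w‖ ≤ ‖T w‖) →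
  (∀ z : ℕ → XX, Ris 3 z → ∀ᶠ l in atTop, ‖S (z l) - T (z l)‖ ≤ c0 / 4) →
  ∃ (N : ℕ) (c : ℝ), 0 < c ∧ ∀ r : ℝ, 0 ≤ r → r ≤ 1 → ∀ w : XX, Rx 0 N w = 0 →
    c * ‖w‖ ≤ ‖T w + r • (S w - T w)‖

/-- there are `M` vectors which are independent modulo the range of `S` -/
def Ind (M : ℕ) {Y X : Type} [NormedAddCommGroup Y] [NormedSpace ℝ Y] [NormedAddCommGroup X]
    [NormedSpace ℝ X] (S : Y →L[ℝ] X) : Prop :=
  ∃ x : Fin M → X, ∀ (α : Fin M → ℝ) (y : Y), S y = ∑ i, α i • x i → α = 0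

/-- FRED: stability of the codimension. `κ = c / (2 * 3^M)` works. Proof. `E = range S` is closed
(`S` is bounded below, `Y` complete). By Riesz's lemma (in `X` or in the quotient `X ⧸ E`, where by
`Ind M S` there are `M` independent vectors) choose `x'_1, .., x'_M` with `‖x'_i‖ ≤ 1` and
`dist (x'_i, E + span (x'_j, j < i)) ≥ 1/2`. Then for `e ∈ E` and real `α`, with
`n = ‖e + ∑ α_i x'_i‖`: `|α_M| ≤ 2 n`, `‖e + ∑_{i<M} α_i x'_i‖ ≤ 3 n`, `|α_{M-1}| ≤ 2 * 3 n`, ...,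
so `‖e‖ ≤ 3^M n`, and `n = 0` implies `α = 0`. If `S' y = ∑ α_i x'_i` then with `e = S y`:
`n = ‖S y - ∑ α_i x'_i‖ = ‖S y - S' y‖ ≤ κ ‖y‖ ≤ (κ / c) ‖S y‖ ≤ (κ / c) 3^M n ≤ n / 2`, so
`n = 0` and `α = 0`. -/
def S_FRED : Prop := ∀ (M : ℕ) (c : ℝ), 0 < c → ∃ κ : ℝ, 0 < κ ∧ ∀ (Y X : Type)
  [NormedAddCommGroup Y] [NormedSpace ℝ Y] [CompleteSpace Y] [NormedAddCommGroup X]
  [NormedSpace ℝ X] [CompleteSpace X] (S S' : Y →L[ℝ] X), (∀ y, c * ‖y‖ ≤ ‖S y‖) →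
  (∀ y, ‖S y - S' y‖ ≤ κ * ‖y‖) → Ind M S → Ind M S'

/-- COD: if there are more than `N` independent vectors modulo the closed range of `S`, then
`range S + span (v_1, .., v_N)` is not dense. Proof. It is closed (the preimage of a finite
dimensional, hence closed, subspace of `X ⧸ range S`), and if it were everything, `X ⧸ range S` would
have dimension at most `N`, but it has `M` linearly independent vectors. -/
def S_COD : Prop := ∀ (Y X : Type) [NormedAddCommGroup Y] [NormedSpace ℝ Y] [CompleteSpace Y]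
  [NormedAddCommGroup X] [NormedSpace ℝ X] [CompleteSpace X] (S : Y →L[ℝ] X) (c : ℝ), 0 < c →
  (∀ y, c * ‖y‖ ≤ ‖S y‖) → ∀ (N M : ℕ), N < M → Ind M S → ∀ v : Fin N → X,
  ∃ x : X, x ∉ closure {u : X | ∃ (y : Y) (β : Fin N → ℝ), u = S y + ∑ i, β i • v i}

/-- DEN: if `op a ∘ op b` is near the identity in the `ℓ¹` norm then the range of `op a` is dense.
Proof. By TAIL it suffices to approximate finitely supported `x`. Let `|x|₁ = ∑ ‖x n‖`. If `x` is
finitely supported, `x' = x - opV a (opV b x)` is finitely supported and `|x'|₁ ≤ (1/2) |x|₁`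
(hypothesis and triangle inequality; `opV` of a finitely supported function is finitely
supported). Iterate: `x = opV a (opV b (x_0 + .. + x_{j-1})) + x_j`, `|x_j|₁ ≤ 2^(-j) |x|₁`, and
`‖x_j‖ ≤ |x_j|₁` (ELS). -/
def S_DEN : Prop := ∀ a b : LS,
  (∀ (k : ℕ) (P : Finset ℕ), ∑ n ∈ P, ‖(opV a (opV b (e k)) - e k) n‖ ≤ 1 / 2) →
  ∀ x : XX, x ∈ closure (Set.range (op a))

/-- ISO: the space is isomorphic to its square. Proof. `x ↦ (Sx v0 x, Sx v1 x)` with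
`v0 = (k1,r1,k2,r2) = (0,0,1,0)`, `v1 = (0,0,1,1)` (`x ↦ x (2 m)`, `x ↦ x (2 m + 1)`), inverse
`(y, z) ↦ Sx (1,0,0,0) y + Sx (1,1,0,0) z`; check the coordinates (`cx_injective`). -/
def S_ISO : Prop := Nonempty (XX ≃L[ℂ] XX × XX)

end

end Pool.Agent.Q73.GM
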